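import Pool.Agent.W133.DQ.StB

/-! # Project DQ: SHEAR, shears have zero invariant -/

set_option autoImplicit false

open scoped ContDiff
open Set Filter Topology

namespace Pool.Agent.W308.DQ

open Pool.Agent.W133.DQ

/-- invariance under conjugation, without inverses -/
theorem L_conj {L : Equiv.Perm P2 → ℝ} (hL : HomOn DC L) {σ F F' : Equiv.Perm P2} (hσ : σ ∈ DC)
    (hF : F ∈ DC) (hF' : F' ∈ DC) (h : σ * F' = F * σ) : L F' = L F := by
  have h1 := hL σ hσ F' hF'
  have h2 := hL F hF σ hσ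
  rw [h] at h1
  linarith

theorem conj_aux (D : ℝ → ℝ → ℝ) (v s ζ : ℝ → ℝ) (M : ℝ) (σ S H : Equiv.Perm P2)
    (hζ : ∀ x, |x| ≤ 5 → ζ x = 1) (hσ : ∀ p : P2, σ p = (p.1, p.2 + ζ p.1 * (s p.2 / M)))
    (hφ : ∀ y, v (y + s y / M) = s y + v y) (hD : ∀ x c, 2 < |x| → D x c = 0)
    (hS : ∀ p : P2, S p = (p.1 + D p.1 (s p.2 + v p.2), p.2))
    (hH : ∀ p : P2, H p = (p.1 + D p.1 (v p.2), p.2))
    (hb : ∀ p : P2, |D p.1 (s p.2 + v p.2)| ≤ 1 / 2) : σ * S = H * σ := by
  refine Equiv.ext fun p => ?_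
  rw [Equiv.Perm.mul_apply, Equiv.Perm.mul_apply]
  rcases lt_or_ge 2 |p.1| with h2 | h2
  · have e1 : S p = p := by
      rw [hS, hD _ _ h2, add_zero]
    rw [e1, hH (σ p)]
    have e2 : (σ p).1 = p.1 := by rw [hσ]
    rw [e2, hD _ _ h2, add_zero]
    ext
    · exact e2
    · rfl
  · have h5 : |p.1| ≤ 5 := by linarith
    have e1 : σ p = (p.1, p.2 + s p.2 / M) := by rw [hσ, hζ _ h5, one_mul]
    have h6 : |p.1 + D p.1 (s p.2 + v p.2)| ≤ 5 := by
      have := abs_add_le p.1 (D p.1 (s p.2 + v p.2))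
      have := hb p
      linarith
    rw [e1, hH, hS, hσ]
    simp only
    rw [hζ _ h6, one_mul, hφ]

theorem nb_snd {v : ℝ → ℝ} (hv : ContDiff ℝ ∞ v) {d : ℝ} (h : ∀ y, |deriv v y| ≤ d) :
    NB 1 (fun p : P2 => v p.2) d := by
  intro p
  rw [norm_iteratedFDeriv_one]
  have h1 : HasDerivAt v (deriv v p.2) p.2 :=
    ((hv.differentiable (by simp)) p.2).hasDerivAt
  have h2 : HasFDerivAt (fun q : P2 => q.2) (ContinuousLinearMap.snd ℝ ℝ ℝ) p := hasFDerivAt_snd
  have h3 := h1.comp_hasFDerivAt p h2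
  have h4 : fderiv ℝ (fun p : P2 => v p.2) p = deriv v p.2 • ContinuousLinearMap.snd ℝ ℝ ℝ :=
    h3.fderiv
  rw [h4, norm_smul, Real.norm_eq_abs]
  have h5 := ContinuousLinearMap.norm_snd_le ℝ ℝ ℝ
  calc |deriv v p.2| * ‖ContinuousLinearMap.snd ℝ ℝ ℝ‖ ≤ |deriv v p.2| * 1 :=
        mul_le_mul_of_nonneg_left h5 (abs_nonneg _)
    _ ≤ d := by rw [mul_one]; exact h _

theorem bdd_supp {ψ : ℝ → ℝ} (hψ : ContDiff ℝ ∞ ψ) {R : ℝ} (h : ∀ y, R ≤ |y| → ψ y = 0) :
    ∃ K, ∀ y, |ψ y| ≤ K ∧ |deriv ψ y| ≤ K := by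
  have hc : HasCompactSupport ψ := by
    refine HasCompactSupport.intro (isCompact_Icc (a := -R) (b := R)) fun x hx => ?_
    apply h
    by_contra hlt
    exact hx (abs_le.mp (not_le.mp hlt).le)
  obtain ⟨C1, h1⟩ := hψ.continuous.bounded_above_of_compact_support hc
  obtain ⟨C2, h2⟩ := (hψ.continuous_deriv (by simp)).bounded_above_of_compact_support hc.deriv
  exact ⟨max C1 C2, fun y => ⟨(h1 y).trans (le_max_left _ _), (h2 y).trans (le_max_right _ _)⟩⟩

/-- the vertical shift, cut off in the horizontal direction -/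
theorem exists_sigma (hCUT : S_CUT) (hLP : S_LPINV) (s : ℝ → ℝ) (M R : ℝ) (hM : 0 < M)
    (hs : ContDiff ℝ ∞ s) (hsR : ∀ y, R ≤ |y| → s y = 0) (hs1 : ∀ y, |deriv s y| ≤ M / 2) :
    ∃ σ ∈ DC, ∀ p : P2, σ p = (p.1, p.2 + pl 5 6 p.1 * (s p.2 / M)) := by
  obtain ⟨z1, z2, z3, z4⟩ := hCUT.1 5 6 (by norm_num) (by norm_num)
  have hw : ContDiff ℝ ∞ (fun q : ℝ × ℝ => pl 5 6 q.2 * (s q.1 / M)) :=
    (z1.comp contDiff_snd).mul ((hs.comp contDiff_fst).div_const M)
  obtain ⟨K, hK⟩ := bdd_supp hs hsR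
  have hK0 : 0 ≤ K := (abs_nonneg _).trans (hK 0).1
  obtain ⟨N, hN1, hN2⟩ := hLP ℝ (fun q : ℝ × ℝ => pl 5 6 q.2 * (s q.1 / M)) hw
    (fun x e => by
      have h1 : deriv (fun y => pl 5 6 e * (s y / M)) x = pl 5 6 e * (deriv s x / M) := by
        rw [deriv_const_mul_field, deriv_div_const]
      change -1 < deriv (fun y => pl 5 6 e * (s y / M)) x
      rw [h1]
      have h2 : |pl 5 6 e * (deriv s x / M)| ≤ 1 / 2 := by
        rw [abs_mul, abs_div, abs_of_pos hM, abs_of_nonneg (z2 e).1]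
        have h3 : |deriv s x| / M ≤ 1 / 2 := by
          rw [div_le_iff₀ hM]
          linarith [hs1 x]
        calc pl 5 6 e * (|deriv s x| / M) ≤ 1 * (1 / 2) :=
              mul_le_mul (z2 e).2 h3 (by positivity) (by norm_num)
          _ = 1 / 2 := by ring
      have := (abs_le.mp h2).1
      linarith)
    (fun e => ⟨K / M, fun x => by
      change |pl 5 6 e * (s x / M)| ≤ K / M
      rw [abs_mul, abs_div, abs_of_pos hM, abs_of_nonneg (z2 e).1]
      calc pl 5 6 e * (|s x| / M) ≤ 1 * (K / M) :=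
            mul_le_mul (z2 e).2 (div_le_div_of_nonneg_right (hK x).1 hM.le) (by positivity)
              (by norm_num)
        _ = K / M := one_mul _⟩)
  let sw : Equiv.Perm P2 := Equiv.prodComm ℝ ℝ
  let N' : Equiv.Perm P2 := N
  have hsw : ContDiff ℝ ∞ (fun p : P2 => sw p) := contDiff_snd.prodMk contDiff_fst
  have hσ : ∀ p : P2, (sw * N' * sw) p = (p.1, p.2 + pl 5 6 p.1 * (s p.2 / M)) := by
    intro p
    rw [Equiv.Perm.mul_apply, Equiv.Perm.mul_apply]
    change Prod.swap (N (Prod.swap p)) = _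
    rw [hN1]
    rfl
  refine ⟨sw * N' * sw, ⟨⟨?_, ?_⟩, max 6 R, ?_⟩, hσ⟩
  · have : (fun p : P2 => (sw * N' * sw) p) =
        fun p : P2 => (p.1, p.2 + pl 5 6 p.1 * (s p.2 / M)) := funext hσ
    rw [this]
    exact contDiff_fst.prodMk (contDiff_snd.add
      ((z1.comp contDiff_fst).mul ((hs.comp contDiff_snd).div_const M)))
  · have : (fun p : P2 => (sw * N' * sw)⁻¹ p) =
        (fun p : P2 => sw p) ∘ (fun p : P2 => N⁻¹ p) ∘ (fun p : P2 => sw p) := by
      funext p
      rfl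
    rw [this]
    exact hsw.comp (hN2.comp hsw)
  · intro p hp
    rw [hσ]
    have h1 : max |p.1| |p.2| = ‖p‖ := by
      rw [Prod.norm_def, Real.norm_eq_abs, Real.norm_eq_abs]
    rw [← h1, lt_max_iff] at hp
    have h0 : pl 5 6 p.1 * (s p.2 / M) = 0 := by
      rcases hp with h | h
      · rw [z4 p.1 ((le_max_left _ _).trans h.le), zero_mul]
      · rw [hsR p.2 ((le_max_right _ _).trans h.le), zero_div, mul_zero]
    rw [h0, add_zero]

theorem shear (hUA : S_UADD) (hUN : S_UNROLL) (hCUT : S_CUT) (hLP : S_LPINV) : S_SHEAR := by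
  intro L hL B
  obtain ⟨dU, hdU, HU⟩ := hUA L hL
  obtain ⟨dR, hdR, HR⟩ := hUN
  set R : ℝ := max B 1 with hRdef
  have hR : 0 < R := lt_of_lt_of_le one_pos (le_max_right _ _)
  obtain ⟨z1, z2, z3, z4⟩ := hCUT.1 R (R + 1) hR (by linarith)
  set ψ : ℝ → ℝ := fun y => y * pl R (R + 1) y with hψdef
  have hψ : ContDiff ℝ ∞ ψ := contDiff_id.mul z1
  have hψR : ∀ y, R + 1 ≤ |y| → ψ y = 0 := fun y hy => by
    simp only [hψdef, z4 y hy, mul_zero]
  obtain ⟨K0, hK0⟩ := bdd_supp hψ hψR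
  set K : ℝ := max K0 1 with hKdef
  have hK : 0 < K := lt_of_lt_of_le one_pos (le_max_right _ _)
  set d1 : ℝ := min dU dR / 2 with hd1def
  have hd1 : 0 < d1 := half_pos (lt_min hdU hdR)
  have hd1U : d1 ≤ dU := by
    have := min_le_left dU dR
    rw [hd1def]; linarith
  have hd1R : d1 + d1 ≤ dR := by
    have := min_le_right dU dR
    rw [hd1def]; linarith
  set M : ℝ := d1 / K with hMdef
  have hM : 0 < M := div_pos hd1 hK
  refine ⟨min d1 (M / 2), lt_min hd1 (half_pos hM), ?_⟩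
  intro s hs hsB hs0 hs1 F1 hF1 F2 hF2 hG1 hG2
  have hsR : ∀ y, R ≤ |y| → s y = 0 := fun y hy => hsB y ((le_max_left _ _).trans hy)
  have hs0' : ∀ y, |s y| ≤ d1 := fun y => (hs0 y).trans (min_le_left _ _)
  have hs1' : ∀ y, |deriv s y| ≤ d1 := fun y => (hs1 y).trans (min_le_left _ _)
  have hs1M : ∀ y, |deriv s y| ≤ M / 2 := fun y => (hs1 y).trans (min_le_right _ _)
  set v : ℝ → ℝ := fun y => M * ψ y with hvdef
  have hv : ContDiff ℝ ∞ v := contDiff_const.mul hψ
  have hMK : M * K = d1 := div_mul_cancel₀ d1 hK.ne'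
  have hvb : ∀ y, |v y| ≤ d1 := by
    intro y
    simp only [hvdef]
    rw [abs_mul, abs_of_pos hM, ← hMK]
    exact mul_le_mul_of_nonneg_left ((hK0 y).1.trans (le_max_left _ _)) hM.le
  have hvd : ∀ y, |deriv v y| ≤ d1 := by
    intro y
    have h1 : deriv v y = M * deriv ψ y := by
      simp only [hvdef]
      rw [deriv_const_mul_field]
    rw [h1, abs_mul, abs_of_pos hM, ← hMK]
    exact mul_le_mul_of_nonneg_left ((hK0 y).2.trans (le_max_left _ _)) hM.le
  have hvR : ∀ y, R + 1 ≤ |y| → v y = 0 := fun y hy => by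
    simp only [hvdef, hψR y hy, mul_zero]
  -- the trick
  have hlip : ∀ x y, |s x - s y| ≤ M / 2 * |x - y| := by
    intro x y
    have h1 := Convex.norm_image_sub_le_of_norm_deriv_le (f := s) (C := M / 2) (s := Set.univ)
      (x := y) (y := x) (fun z _ => (hs.differentiable (by simp)) z) (fun z _ => hs1M z)
      convex_univ (Set.mem_univ _) (Set.mem_univ _)
    exact h1
  have hφ : ∀ y, v (y + s y / M) = s y + v y := by
    intro y
    rcases le_or_gt R |y| with h | h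
    · rw [hsR y h, zero_div, add_zero, zero_add]
    · have hy := abs_lt.mp h
      have e1 := hlip y R
      have e2 := hlip y (-R)
      rw [hsR R (by rw [abs_of_pos hR]), sub_zero, abs_of_neg (by linarith : y - R < 0)] at e1
      rw [hsR (-R) (by rw [abs_neg, abs_of_pos hR]), sub_zero,
        abs_of_pos (by linarith : 0 < y - -R)] at e2
      have e3 : |s y / M| ≤ R - y := by
        rw [abs_div, abs_of_pos hM, div_le_iff₀ hM]
        nlinarith
      have e4 : |s y / M| ≤ R + y := by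
        rw [abs_div, abs_of_pos hM, div_le_iff₀ hM]
        nlinarith
      have e5 : |y + s y / M| ≤ R := by
        rw [abs_le]
        have a1 := (abs_le.mp e4).1
        have a2 := (abs_le.mp e3).2
        constructor <;> linarith
      simp only [hvdef, hψdef]
      rw [z3 _ e5, z3 _ h.le]
      field_simp
      ring
  -- the three periodic displacements
  have hfv : ContDiff ℝ ∞ (fun p : P2 => v p.2) := hv.comp contDiff_snd
  have hfs : ContDiff ℝ ∞ (fun p : P2 => s p.2) := hs.comp contDiff_snd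
  have hsum : ContDiff ℝ ∞ (fun y => s y + v y) := hs.add hv
  obtain ⟨H1, hH1, H2, hH2, hGH1, hGH2, b1, b2, _⟩ := HR (fun p => v p.2) hfv
    (fun p => rfl) ⟨R + 1, fun p hp => hvR _ hp⟩
    (fun p => (hvb _).trans (by linarith)) (nb_snd hv fun y => (hvd y).trans (by linarith))
  obtain ⟨S1, hS1, S2, hS2, hGS1, hGS2, c1, c2, _⟩ := HR (fun p => s p.2 + v p.2)
    (hfs.add hfv)
    (fun p => rfl) ⟨R + 1, fun p hp => by
      change s p.2 + v p.2 = 0
      rw [hvR _ hp, hsR _ (by linarith), add_zero]⟩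
    (fun p => (abs_add_le _ _).trans ((add_le_add (hs0' _) (hvb _)).trans hd1R))
    (nb_snd hsum fun y => by
      have h1 : deriv (fun y => s y + v y) y = deriv s y + deriv v y := by
        have := deriv_add ((hs.differentiable (by simp)) y) ((hv.differentiable (by simp)) y)
        exact this
      rw [h1]
      exact (abs_add_le _ _).trans ((add_le_add (hs1' _) (hvd _)).trans hd1R))
  have hadd := HU (fun p => v p.2) (fun p => s p.2) hfv hfs (fun p => rfl) (fun p => rfl)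
    ⟨R + 1, fun p hp => ⟨hvR _ hp, hsR _ (by linarith)⟩⟩
    (fun p => (hvb _).trans hd1U) (nb_snd hv fun y => (hvd y).trans hd1U)
    (fun p => (hs0' _).trans hd1U) (nb_snd hs fun y => (hs1' y).trans hd1U)
    H1 H2 F1 F2 S1 S2 hH1 hH2 hF1 hF2 hS1 hS2 hGH1 hGH2 hG1 hG2 hGS1 hGS2
  -- conjugation
  obtain ⟨σ, hσ, hσp⟩ := exists_sigma hCUT hLP s M R hM hs hsR hs1M
  have h56 := (hCUT.1 5 6 (by norm_num) (by norm_num)).2.2.1
  have hc0 : ∀ x, 2 < |x| → chi0 x = 0 := by
    intro x hx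
    have h1 := (hCUT.1 (1 / 5) (2 / 5) (by norm_num) (by norm_num)).2.2.2 (x - 1 / 2) (by
      have := abs_sub_abs_le_abs_sub x (1 / 2)
      rw [abs_of_pos (by norm_num : (0 : ℝ) < 1 / 2)] at this
      linarith)
    exact h1
  have hk0 : ∀ x, 2 < |x| → kap x = 0 := by
    intro x hx
    exact (hCUT.1 (2 / 5) (3 / 5) (by norm_num) (by norm_num)).2.2.2 x (by linarith)
  have e1 : σ * S1 = H1 * σ :=
    conj_aux (fun x c => chi0 x * c) v s (pl 5 6) M σ S1 H1 h56 hσp hφ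
      (fun x c hx => by simp only [hc0 x hx, zero_mul]) (fun p => hGS1 p) (fun p => hGH1 p)
      (fun p => c1 p)
  have e2 : σ * S2 = H2 * σ :=
    conj_aux (fun x c => kap x * (c + Classical.epsilon (fun t : ℝ => t + chi (x + c + t) * c = 0)))
      v s (pl 5 6) M σ S2 H2 h56 hσp hφ
      (fun x c hx => by simp only [hk0 x hx, zero_mul]) (fun p => hGS2 p) (fun p => hGH2 p)
      (fun p => c2 p)
  have l1 : L S1 = L H1 := L_conj hL hσ hH1.1 hS1.1 e1
  have l2 : L S2 = L H2 := L_conj hL hσ hH2.1 hS2.1 e2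
  linarith

end Pool.Agent.W308.DQ
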